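import Pool.Agent.H852R2.TE.Defs

namespace TE852
open RC14 RC852 Finset Filter Equiv

private theorem PARAM_kappa (c : ℝ) (hc : 0 < c) : ∃ κ : ℝ, 0 < κ ∧ κ ≤ 1 ∧
    κ * (1 - Real.log κ) ≤ c := by
  have h1 : Tendsto (fun x : ℝ => Real.log x * x) (nhdsWithin 0 (Set.Ioi 0)) (nhds 0) := by
    simpa only [Real.rpow_one] using tendsto_log_mul_rpow_nhdsGT_zero zero_lt_one
  have h2 : Tendsto (fun x : ℝ => x) (nhdsWithin 0 (Set.Ioi 0)) (nhds 0) :=
    tendsto_nhdsWithin_of_tendsto_nhds tendsto_id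
  have h3 := h2.sub h1
  rw [sub_zero] at h3
  have h4 := h3.eventually (gt_mem_nhds hc)
  have h5 : ∀ᶠ x : ℝ in nhdsWithin 0 (Set.Ioi 0), x < 1 := h2.eventually (gt_mem_nhds one_pos)
  obtain ⟨κ, h6, h7, h8⟩ := (h4.and (h5.and self_mem_nhdsWithin)).exists
  refine ⟨κ, h8, h7.le, ?_⟩
  have : κ * (1 - Real.log κ) = κ - Real.log κ * κ := by ring
  rw [this]
  exact h6.le

/-- choice of the parameters `M` and `d` -/
theorem PARAM (C c0 : ℝ) (hC : 0 < C) (hc0 : 0 < c0) : ∃ κ : ℝ, 0 < κ ∧ ∀ᶠ n : ℕ in atTop,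
    ∀ r : ℕ, 1 ≤ r → ∃ M d : ℕ, d ≤ M ∧ C * (r * Real.log n) ≤ M ∧
      NF M d ≤ (n : ℝ) ^ (c0 * r) ∧ (M : ℝ) / (d + 1) ≤ 1 / κ := by
  obtain ⟨κ, hκ0, hκ1, hκ⟩ := PARAM_kappa (c0 / (C + 1)) (by positivity)
  refine ⟨κ, hκ0, ?_⟩
  filter_upwards [eventually_ge_atTop 3] with n hn r hr
  have hn3 : (3 : ℝ) ≤ n := by exact_mod_cast hn
  have hn0 : (0 : ℝ) < n := by linarith
  have hlog : 1 ≤ Real.log n := by
    rw [Real.le_log_iff_exp_le hn0]
    linarith [Real.exp_one_lt_d9]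
  have hr1 : (1 : ℝ) ≤ r := by exact_mod_cast hr
  have hrl : 1 ≤ r * Real.log n := by nlinarith
  set M : ℕ := ⌈C * (r * Real.log n)⌉₊ with hM
  have hM1 : C * (r * Real.log n) ≤ M := Nat.le_ceil _
  have hM2 : (M : ℝ) < C * (r * Real.log n) + 1 := Nat.ceil_lt_add_one (by positivity)
  set d : ℕ := ⌊κ * M⌋₊ with hd
  have hd1 : (d : ℝ) ≤ κ * M := Nat.floor_le (by positivity)
  have hd2 : κ * M < d + 1 := Nat.lt_floor_add_one _
  have hdM : (d : ℝ) ≤ M := hd1.trans (by nlinarith [Nat.cast_nonneg (α := ℝ) M])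
  refine ⟨M, d, by exact_mod_cast hdM, hM1, ?_, ?_⟩
  · have hlk : Real.log κ ≤ 0 := Real.log_nonpos hκ0.le hκ1
    -- the sum of the binomial coefficients
    have h1 : NF M d * κ ^ d ≤ (1 + κ) ^ M := by
      unfold NF
      rw [Finset.sum_mul, add_comm 1 κ, add_pow]
      have h2 : ∀ i ∈ Finset.range (d + 1), (M.choose i : ℝ) * κ ^ d ≤
          κ ^ i * 1 ^ (M - i) * (M.choose i : ℝ) := by
        intro i hi
        have h3 : κ ^ d ≤ κ ^ i :=
          pow_le_pow_of_le_one hκ0.le hκ1 (by have := Finset.mem_range.1 hi; omega)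
        rw [one_pow, mul_one, mul_comm (κ ^ i)]
        exact mul_le_mul_of_nonneg_left h3 (Nat.cast_nonneg _)
      refine (Finset.sum_le_sum h2).trans ?_
      apply Finset.sum_le_sum_of_subset_of_nonneg
      · intro i hi
        have hdM' : d ≤ M := by exact_mod_cast hdM
        rw [Finset.mem_range] at hi ⊢
        omega
      · intro i _ _
        positivity
    have h2 : (1 + κ) ^ M ≤ Real.exp (κ * M) := by
      have h3 : 1 + κ ≤ Real.exp κ := by linarith [Real.add_one_le_exp κ]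
      calc (1 + κ) ^ M ≤ (Real.exp κ) ^ M := pow_le_pow_left₀ (by linarith) h3 M
        _ = Real.exp (κ * M) := by rw [← Real.exp_nat_mul, mul_comm]
    have h3 : Real.exp (κ * M * Real.log κ) ≤ κ ^ d := by
      have h4 : κ ^ d = Real.exp (d * Real.log κ) := by
        rw [Real.exp_nat_mul, Real.exp_log hκ0]
      rw [h4]
      apply Real.exp_le_exp.2
      exact mul_le_mul_of_nonpos_right hd1 hlk
    have hNF0 : 0 ≤ NF M d := by
      unfold NF
      exact Finset.sum_nonneg fun i _ => Nat.cast_nonneg _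
    have h4 : NF M d ≤ Real.exp (κ * M * (1 - Real.log κ)) := by
      have h5 : NF M d * Real.exp (κ * M * Real.log κ) ≤ Real.exp (κ * M) :=
        (mul_le_mul_of_nonneg_left h3 hNF0).trans (h1.trans h2)
      have h6 : Real.exp (κ * M) = Real.exp (κ * M * (1 - Real.log κ)) *
          Real.exp (κ * M * Real.log κ) := by
        rw [← Real.exp_add]
        congr 1
        ring
      rw [h6] at h5
      exact le_of_mul_le_mul_right h5 (Real.exp_pos _)
    refine h4.trans ?_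
    rw [Real.rpow_def_of_pos hn0]
    apply Real.exp_le_exp.2
    have h5 : κ * M * (1 - Real.log κ) ≤ c0 / (C + 1) * M := by
      have : κ * M * (1 - Real.log κ) = κ * (1 - Real.log κ) * M := by ring
      rw [this]
      exact mul_le_mul_of_nonneg_right hκ (Nat.cast_nonneg _)
    have h6 : (M : ℝ) ≤ (C + 1) * (r * Real.log n) := by nlinarith
    have h7 : c0 / (C + 1) * M ≤ c0 / (C + 1) * ((C + 1) * (r * Real.log n)) :=
      mul_le_mul_of_nonneg_left h6 (by positivity)
    have h8 : c0 / (C + 1) * ((C + 1) * (r * Real.log n)) = Real.log n * (c0 * r) := by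
      field_simp
    linarith
  · rw [div_le_div_iff₀ (by positivity) hκ0]
    linarith

end TE852
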